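import Mathlib
import Pool.Agent.P8H13.OP.Top2

/-!
# Primes at prescribed relative positions of Oppermann's intervals (helper13)

Let `7/10 < θ ≤ 1`. For almost every `α ∈ (0, 1)` (Lebesgue measure) there are infinitely many `x` such that
`x² + ⌊α x^θ⌋` is prime (a prime of Oppermann's interval `(x², x² + x)`), and infinitely many `x` such that
`x² - x + ⌊α x^θ⌋` is prime (a prime of Oppermann's interval `(x² - x, x²)`). For `θ = 1` these are the
points which divide the intervals in the ratio `α : (1 - α)`; for `θ < 1` they are much nearer to `x²`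
(to `x² - x`).

Proof. (1) For every interval `[β, γ] ⊆ [0, 1]` and every large `N` there is an `x ∈ (N, 2 N]` such that at
least `c (γ - β) x^θ / log x` integers `a` with `β x^θ ≤ a ≤ γ x^θ - 1` have `x² + a` prime, with `c` not
depending on `β, γ`: on average over `x` by the lower bound for the number of the primes `x² + a`, `x ≤ N`,
for almost all `a ≤ N^θ`, of the starting library (`Pool.Agent.N792.t9`, helper792, the hand-in
`MP_391708_nt.ThinFamilyLowerBound`), together with a lower bound for the constants of Hardy and Littlewood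
for most `a` in every interval (`Pool.Agent.N511.LL.b2`, helper511, and `Pool.Agent.N792.x8`).
(2) Take such an `x = x_j` for every `N = 4^j` and let `F_j` be the set of the `α ∈ [β, γ]` with
`x_j² + ⌊α x_j^θ⌋` prime. The measure of `F_j` is at least `c (γ - β) / (3 j)` and the overlap of `F_j` and
`F_k`, `j < k`, is at most `C |F_j| / (k - j)` by the Brun-Titchmarsh inequality (`Helper602.MK.N_J3.J3`).
Hence the union of the `F_j`, `j ≥ m`, has at least the measure `c' (γ - β)` for every `m` (Chung-Erdős),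
`c'` not depending on `β, γ`, and Lebesgue's density theorem gives almost all `α`.
-/

set_option autoImplicit false

namespace Pool.Agent.Results.MP_bf4c7f_nt.PointsOfTheIntervals

open Filter

/-- **Points of Oppermann's intervals.** Let `7/10 < θ ≤ 1`. For almost every `α` with `0 < α < 1` there are
infinitely many natural numbers `x` with `x² + ⌊α x^θ⌋` prime, and infinitely many with
`x² - x + ⌊α x^θ⌋` prime. -/
theorem result (θ : ℝ) (hθ : 7 / 10 < θ) (hθ1 : θ ≤ 1) :
    ∀ᵐ α : ℝ, 0 < α → α < 1 →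
      {x : ℕ | (x ^ 2 + ⌊α * (x : ℝ) ^ θ⌋₊).Prime}.Infinite ∧
      {x : ℕ | (x ^ 2 - x + ⌊α * (x : ℝ) ^ θ⌋₊).Prime}.Infinite := by
  have h0 := Pool.Agent.P8H13.OP.main 0 (Or.inl rfl) θ hθ hθ1
  have h1 := Pool.Agent.P8H13.OP.main (-1) (Or.inr rfl) θ hθ hθ1
  have e0 : ∀ x : ℕ, Pool.Agent.P8H13.OP.q 0 x = x ^ 2 := by
    intro x
    unfold Pool.Agent.P8H13.OP.q
    rw [zero_mul, add_zero]
    have : ((x : ℤ) ^ 2) = ((x ^ 2 : ℕ) : ℤ) := by push_cast; rfl
    rw [this, Int.toNat_natCast]
  have e1 : ∀ x : ℕ, Pool.Agent.P8H13.OP.q (-1) x = x ^ 2 - x := by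
    intro x
    have hx : x ≤ x ^ 2 := Nat.le_self_pow (by norm_num) x
    unfold Pool.Agent.P8H13.OP.q
    have : ((x : ℤ) ^ 2 + -1 * x) = ((x ^ 2 - x : ℕ) : ℤ) := by
      rw [Nat.cast_sub hx]
      push_cast
      ring
    rw [this, Int.toNat_natCast]
  filter_upwards [h0, h1] with α a0 a1 hα0 hα1
  have b0 := a0 ⟨hα0, hα1⟩
  have b1 := a1 ⟨hα0, hα1⟩
  simp only [e0] at b0
  simp only [e1] at b1
  exact ⟨Nat.frequently_atTop_iff_infinite.1 b0, Nat.frequently_atTop_iff_infinite.1 b1⟩

end Pool.Agent.Results.MP_bf4c7f_nt.PointsOfTheIntervals
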