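import Mathlib
import Pool.Agent.P8H13.NQ.Fin

/-!
# Oppermann's intervals with primes near a prescribed relative position (helper13)

For `α ∈ (0, 1)` and `λ > 0` we count the primes among the next `λ log x` integers above `x² + α x`, and
above `x² - x + α x`: these are the points which divide Oppermann's intervals `(x², x² + x)` and
`(x² - x, x²)` in the ratio `α : (1 - α)`. Let `above α λ t N` be the number of the `x ∈ (N, 2 N]` with at
least `t` such primes above `x² + α x`, and `below α λ t N` the same for `x² - x + α x`.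
For almost every `α ∈ (0, 1)` (Lebesgue measure) and all `λ > 0` the following holds. Both
`above α λ 1 N` and `below α λ 1 N` are at most `C λ N` for every large `N`; and for a positive proportion of
the scales `N` both `above α λ t N` and `below α λ t N` are at least `c (λ / (1 + λ)) N`, where
`t = max (1, c λ)` is of the order of the expected number of the primes: for every strictly increasing
sequence `u` of scales the set of the `k` with this lower bound at `N = u_k` has upper density at least `δ`.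
The constants `c, δ, C` depend neither on `α` nor on `λ` nor on `u`. So a positive proportion of Oppermann's
intervals has primes within `λ log x` of the prescribed relative position, in the expected order of their
number, at infinitely many scales; and for small `λ` most of the intervals have none.

Proof. Let `w(x)` be the number of the primes among the next `λ log N` integers. First moment over
`α ∈ [β, γ]`: the lower bound for the number of the primes in the parts `(x² + β x, x² + γ x)` of the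
intervals (`Pool.Agent.P8H13.OP.rowsum2`, from `MP_391708_nt.ThinFamilyLowerBound`, helper792, and
`Pool.Agent.N511.LL.b2`, helper511). Moments over `x`, for fixed `α` with a rational approximation
`|α - h / q| ≤ 1 / q²`, `N^(1/4) ≤ q ≤ N^(3/4)`: the values `x² + ⌊α x⌋` are equidistributed in the
residue classes to small moduli, and the upper bound sieve (`Pool.Agent.Y257.HS.s_TH`, dimensions 1 and 2)
gives at most `C (d / φ(d)) N / log² N` numbers `x` with two given primes at the distance `d`. The mean of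
`d / φ(d)` is bounded (`Pool.Agent.N837.LP.sum_div_totient`), so that `∑ w(x) ≤ C λ N` and
`∑ w(x)² ≤ C (λ + λ²) N`. With the Cauchy-Schwarz inequality the good `α ∈ [β, γ]` have the measure
`≥ c₃ (γ - β)` at every large scale; averaging over the scales and Lebesgue's density theorem give the lower
bound, the Borel-Cantelli lemma at the scales `2^j` gives the upper bound.
-/

set_option autoImplicit false

namespace Pool.Agent.Results.MP_bf4c7f_nt.PrimesNearPoints

open Finset Filter

/-- The number of the primes `p` with `y < p ≤ y + h`. -/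
noncomputable def primesIn (y h : ℝ) : ℕ := Set.ncard {p : ℕ | p.Prime ∧ y < p ∧ (p : ℝ) ≤ y + h}

/-- The number of the `x` with `N < x ≤ 2 N` for which there are at least `t` primes `p` with
`x² + α x < p ≤ x² + α x + λ log x`. -/
noncomputable def above (α lam t : ℝ) (N : ℕ) : ℕ :=
  ((Ioc N (2 * N)).filter (fun x : ℕ => t ≤ (primesIn ((x : ℝ) ^ 2 + α * x) (lam * Real.log x) : ℝ))).card

/-- The number of the `x` with `N < x ≤ 2 N` for which there are at least `t` primes `p` with
`x² - x + α x < p ≤ x² - x + α x + λ log x`. -/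
noncomputable def below (α lam t : ℝ) (N : ℕ) : ℕ :=
  ((Ioc N (2 * N)).filter (fun x : ℕ => t ≤ (primesIn ((x : ℝ) ^ 2 - x + α * x) (lam * Real.log x) : ℝ))).card

/-- **Primes near prescribed relative positions.** There are `c, δ, C > 0` such that
(i) for almost every `α ∈ (0, 1)`, all `λ > 0` and every large `N` both `above α λ 1 N` and `below α λ 1 N`
are at most `C λ N`;
(ii) for every strictly increasing sequence `u` of natural numbers, almost every `α ∈ (0, 1)` and all
`λ > 0`, with `t = max (1, c λ)`, there are arbitrarily large `K` such that at least `δ K` of the `k < K`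
satisfy `c (λ / (1 + λ)) u_k ≤ above α λ t u_k`, and there are arbitrarily large `K` such that at least
`δ K` of the `k < K` satisfy `c (λ / (1 + λ)) u_k ≤ below α λ t u_k`. -/
theorem result : ∃ c δ C : ℝ, 0 < c ∧ 0 < δ ∧ 0 < C ∧
    (∀ᵐ α : ℝ, 0 < α → α < 1 → ∀ lam : ℝ, 0 < lam → ∀ᶠ N : ℕ in atTop,
      (above α lam 1 N : ℝ) ≤ C * lam * N ∧ (below α lam 1 N : ℝ) ≤ C * lam * N) ∧
    ∀ u : ℕ → ℕ, StrictMono u → ∀ᵐ α : ℝ, 0 < α → α < 1 → ∀ lam : ℝ, 0 < lam →
      (∃ᶠ K : ℕ in atTop, δ * K ≤ (((range K).filter (fun k : ℕ =>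
        c * (lam / (1 + lam)) * (u k : ℝ) ≤ (above α lam (max 1 (c * lam)) (u k) : ℝ))).card : ℝ)) ∧
      (∃ᶠ K : ℕ in atTop, δ * K ≤ (((range K).filter (fun k : ℕ =>
        c * (lam / (1 + lam)) * (u k : ℝ) ≤ (below α lam (max 1 (c * lam)) (u k) : ℝ))).card : ℝ)) := by
  classical
  have e0 : ∀ x : ℕ, ((Pool.Agent.P8H13.OP.q 0 x : ℕ) : ℝ) = (x : ℝ) ^ 2 := by
    intro x
    have h := Pool.Agent.P8H13.OP.q_cast 0 (Or.inl rfl) x
    rw [zero_mul, add_zero] at h
    have h2 : (((Pool.Agent.P8H13.OP.q 0 x : ℕ) : ℤ) : ℝ) = (((x : ℤ) ^ 2 : ℤ) : ℝ) := by rw [h]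
    push_cast at h2
    exact h2
  have e1 : ∀ x : ℕ, ((Pool.Agent.P8H13.OP.q (-1) x : ℕ) : ℝ) = (x : ℝ) ^ 2 - x := by
    intro x
    have h := Pool.Agent.P8H13.OP.q_cast (-1) (Or.inr rfl) x
    have h2 : (((Pool.Agent.P8H13.OP.q (-1) x : ℕ) : ℤ) : ℝ) = (((x : ℤ) ^ 2 + -1 * x : ℤ) : ℝ) := by rw [h]
    push_cast at h2
    rw [h2]
    ring
  have n0 : ∀ (α lam t : ℝ) (N : ℕ), Pool.Agent.P8H13.NQ.Nr 0 α lam t N = above α lam t N := by
    intro α lam t N
    unfold Pool.Agent.P8H13.NQ.Nr above Pool.Agent.P8H13.NQ.pri primesIn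
    simp only [e0]
  have n1 : ∀ (α lam t : ℝ) (N : ℕ), Pool.Agent.P8H13.NQ.Nr (-1) α lam t N = below α lam t N := by
    intro α lam t N
    unfold Pool.Agent.P8H13.NQ.Nr below Pool.Agent.P8H13.NQ.pri primesIn
    simp only [e1]
  obtain ⟨c0, t0, δ0, hc0, ht0, hδ0, l0⟩ := Pool.Agent.P8H13.NQ.densN 0 (Or.inl rfl)
  obtain ⟨c1, t1, δ1, hc1, ht1, hδ1, l1⟩ := Pool.Agent.P8H13.NQ.densN (-1) (Or.inr rfl)
  obtain ⟨C0, hC0, m0⟩ := Pool.Agent.P8H13.NQ.upN 0 (Or.inl rfl)
  obtain ⟨C1, hC1, m1⟩ := Pool.Agent.P8H13.NQ.upN (-1) (Or.inr rfl)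
  obtain ⟨c, hc⟩ : ∃ c : ℝ, c = min (min c0 t0) (min c1 t1) := ⟨_, rfl⟩
  have hcc0 : c ≤ c0 := by rw [hc]; exact (min_le_left _ _).trans (min_le_left _ _)
  have hct0 : c ≤ t0 := by rw [hc]; exact (min_le_left _ _).trans (min_le_right _ _)
  have hcc1 : c ≤ c1 := by rw [hc]; exact (min_le_right _ _).trans (min_le_left _ _)
  have hct1 : c ≤ t1 := by rw [hc]; exact (min_le_right _ _).trans (min_le_right _ _)
  have hc00 : 0 < c := by rw [hc]; exact lt_min (lt_min hc0 ht0) (lt_min hc1 ht1)
  refine ⟨c, min δ0 δ1, max C0 C1, hc00, lt_min hδ0 hδ1, lt_max_of_lt_left hC0, ?_, ?_⟩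
  · filter_upwards [m0, m1] with α a0 a1 hα0 hα1 lam hlam
    filter_upwards [a0 ⟨hα0, hα1⟩ lam hlam, a1 ⟨hα0, hα1⟩ lam hlam] with N b0 b1
    rw [n0] at b0
    rw [n1] at b1
    have hy : 0 ≤ lam * (N : ℝ) := by positivity
    constructor
    · calc (above α lam 1 N : ℝ) ≤ C0 * lam * N := b0
        _ = C0 * (lam * N) := by ring
        _ ≤ max C0 C1 * (lam * N) := mul_le_mul_of_nonneg_right (le_max_left _ _) hy
        _ = _ := by ring
    · calc (below α lam 1 N : ℝ) ≤ C1 * lam * N := b1
        _ = C1 * (lam * N) := by ring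
        _ ≤ max C0 C1 * (lam * N) := mul_le_mul_of_nonneg_right (le_max_right _ _) hy
        _ = _ := by ring
  · intro u hu
    filter_upwards [l0 u hu, l1 u hu] with α a0 a1 hα0 hα1 lam hlam
    have b0 := a0 ⟨hα0, hα1⟩ lam hlam
    have b1 := a1 ⟨hα0, hα1⟩ lam hlam
    have hl : 0 ≤ lam / (1 + lam) := by positivity
    have key : ∀ (b : ℤ) (cb tb : ℝ), c ≤ cb → c ≤ tb → ∀ k : ℕ,
        cb * (lam / (1 + lam)) * (u k : ℝ) ≤
          (Pool.Agent.P8H13.NQ.near b α ⌊lam * Real.log (u k)⌋₊ (max 1 (tb * lam)) (u k) : ℝ) →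
        c * (lam / (1 + lam)) * (u k : ℝ) ≤ (Pool.Agent.P8H13.NQ.Nr b α lam (max 1 (c * lam)) (u k) : ℝ) := by
      intro b cb tb hcb htb k h
      have h1 : c * (lam / (1 + lam)) * (u k : ℝ) ≤ cb * (lam / (1 + lam)) * (u k : ℝ) :=
        mul_le_mul_of_nonneg_right (mul_le_mul_of_nonneg_right hcb hl) (Nat.cast_nonneg _)
      rcases Nat.eq_zero_or_pos (u k) with h0 | h0
      · rw [h0]
        simp
      · have h2 := Pool.Agent.P8H13.NQ.near_le_Nr b α hα0.le lam hlam (max 1 (c * lam)) (u k) h0
        have h4 := Pool.Agent.P8H13.NQ.near_mono b α (le_refl ⌊lam * Real.log (u k)⌋₊)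
          (max_le_max (le_refl (1 : ℝ)) (mul_le_mul_of_nonneg_right htb hlam.le)) (u k)
        have h3 : (Pool.Agent.P8H13.NQ.near b α ⌊lam * Real.log (u k)⌋₊ (max 1 (tb * lam)) (u k) : ℝ) ≤
            Pool.Agent.P8H13.NQ.Nr b α lam (max 1 (c * lam)) (u k) := by exact_mod_cast h4.trans h2
        linarith
    constructor
    · refine b0.mono fun K hK => ?_
      refine (mul_le_mul_of_nonneg_right (min_le_left _ _) (Nat.cast_nonneg K)).trans (hK.trans ?_)
      have : ((range K).filter (fun k : ℕ => c0 * (lam / (1 + lam)) * (u k : ℝ) ≤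
            (Pool.Agent.P8H13.NQ.near 0 α ⌊lam * Real.log (u k)⌋₊ (max 1 (t0 * lam)) (u k) : ℝ))) ⊆
          ((range K).filter (fun k : ℕ =>
          c * (lam / (1 + lam)) * (u k : ℝ) ≤ (above α lam (max 1 (c * lam)) (u k) : ℝ))) := by
        intro k hk
        rw [mem_filter] at hk ⊢
        rw [← n0]
        exact ⟨hk.1, key 0 c0 t0 hcc0 hct0 k hk.2⟩
      exact_mod_cast card_le_card this
    · refine b1.mono fun K hK => ?_
      refine (mul_le_mul_of_nonneg_right (min_le_right _ _) (Nat.cast_nonneg K)).trans (hK.trans ?_)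
      have : ((range K).filter (fun k : ℕ => c1 * (lam / (1 + lam)) * (u k : ℝ) ≤
            (Pool.Agent.P8H13.NQ.near (-1) α ⌊lam * Real.log (u k)⌋₊ (max 1 (t1 * lam)) (u k) : ℝ))) ⊆
          ((range K).filter (fun k : ℕ =>
          c * (lam / (1 + lam)) * (u k : ℝ) ≤ (below α lam (max 1 (c * lam)) (u k) : ℝ))) := by
        intro k hk
        rw [mem_filter] at hk ⊢
        rw [← n1]
        exact ⟨hk.1, key (-1) c1 t1 hcc1 hct1 k hk.2⟩
      exact_mod_cast card_le_card this

end Pool.Agent.Results.MP_bf4c7f_nt.PrimesNearPoints
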